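import Pool.Agent.T4h91.HR.Main

set_option autoImplicit false

/-! Bases of order `h` with many biased elements. -/

open Finset Filter Topology

namespace Pool.Agent.T4h91.HR

open Pool.Agent.Helper112 Pool.Agent.TH314.ET Pool.Agent.T4h91.BR

/-- `L = ∑ δ_q^(2h) / φ(q)^(h-1)`, `h = k + 1` -/
noncomputable def LK (k : ℕ) (Q : Finset ℕ) (δ : ℕ → ℝ) : ℝ :=
  ∑ q ∈ Q, δ q ^ (2 * (k + 1)) / (Nat.totient q : ℝ) ^ k

/-- `∑ δ_q^(2h-1) φ_q(n) / φ(q)^(h-1)`, `h = k + 1` -/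
noncomputable def SK (k : ℕ) (Q : Finset ℕ) (δ : ℕ → ℝ) (φ : ℕ → ℕ → ℂ) (n : ℕ) : ℂ :=
  ∑ q ∈ Q, ((δ q ^ (2 * k + 1) / (Nat.totient q : ℝ) ^ k : ℝ) : ℂ) * φ q n

lemma hoelderK (k : ℕ) (Q : Finset ℕ) (δ X : ℕ → ℝ) (hδ : ∀ q, 0 ≤ δ q) (hX : ∀ q, 0 ≤ X q)
    (hL : 0 < LK k Q δ) :
    (∑ q ∈ Q, δ q ^ (2 * k + 1) / (Nat.totient q : ℝ) ^ k * X q) ^ (2 * (k + 1)) ≤
      LK k Q δ ^ (2 * k + 1) * ∑ q ∈ Q, X q ^ (2 * (k + 1)) / (Nat.totient q : ℝ) ^ k := by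
  set L := LK k Q δ with hLdef
  have h1 := Real.pow_arith_mean_le_arith_mean_pow Q
    (fun q => δ q ^ (2 * (k + 1)) / (Nat.totient q : ℝ) ^ k / L) (fun q => X q / δ q)
    (fun q _ => div_nonneg (div_nonneg (pow_nonneg (hδ q) _) (by positivity)) hL.le)
    (by rw [← sum_div]; exact div_self hL.ne')
    (fun q _ => div_nonneg (hX q) (hδ q)) (2 * (k + 1))
  have e1 : ∑ q ∈ Q, δ q ^ (2 * (k + 1)) / (Nat.totient q : ℝ) ^ k / L * (X q / δ q) =
      (∑ q ∈ Q, δ q ^ (2 * k + 1) / (Nat.totient q : ℝ) ^ k * X q) / L := by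
    rw [sum_div]
    refine sum_congr rfl fun q _ => ?_
    rcases (hδ q).eq_or_lt with h | h
    · rw [← h, zero_pow (by omega), zero_pow (by omega)]
      simp
    · rw [show 2 * (k + 1) = (2 * k + 1) + 1 by ring, pow_succ]
      field_simp
  have e2 : ∑ q ∈ Q, δ q ^ (2 * (k + 1)) / (Nat.totient q : ℝ) ^ k / L * (X q / δ q) ^ (2 * (k + 1)) ≤
      (∑ q ∈ Q, X q ^ (2 * (k + 1)) / (Nat.totient q : ℝ) ^ k) / L := by
    rw [sum_div]
    refine sum_le_sum fun q _ => ?_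
    rcases (hδ q).eq_or_lt with h | h
    · rw [← h, zero_pow (by omega), zero_div, zero_div, zero_mul]
      exact div_nonneg (div_nonneg (pow_nonneg (hX q) _) (by positivity)) hL.le
    · apply le_of_eq
      rw [div_pow]
      have : δ q ^ (2 * (k + 1)) ≠ 0 := by positivity
      field_simp
  rw [e1, div_pow] at h1
  have h2 := h1.trans e2
  have hLp : 0 < L ^ (2 * (k + 1)) := by positivity
  rw [div_le_iff₀ hLp] at h2
  refine h2.trans (le_of_eq ?_)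
  rw [show 2 * (k + 1) = (2 * k + 1) + 1 by ring, pow_succ]
  field_simp

/-- bases with many biased elements -/
theorem biasedK (k : ℕ) (A : Set ℕ) (hA : IsB (k + 1) A) (Q : ℕ → Finset ℕ)
    (hQ : ∀ N, Q N ⊆ Icc 1 (Nat.sqrt N)) (φ : ℕ → ℕ → ℕ → ℂ) (h : ∀ N, ∀ q ∈ Q N, Prim q (φ N q))
    (δ : ℕ → ℕ → ℝ) (hδ : ∀ N q, 0 ≤ δ N q)
    (hL : Tendsto (fun N => LK k (Q N) (δ N)) atTop atTop) (c ε : ℝ) (hc : 0 < c) (hε : 0 < ε)
    (hB : ∃ᶠ N : ℕ in atTop, ε * ((seg A N).card : ℝ) ≤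
      (({a : ℕ | a ∈ A ∧ 1 ≤ a ∧ a ≤ N ∧ c * LK k (Q N) (δ N) ≤
        ‖SK k (Q N) (δ N) (φ N) a‖}.ncard : ℕ) : ℝ)) (K : ℕ) :
    ∃ n, K < urep A (k + 1) n := by
  classical
  by_contra hcon
  push Not at hcon
  set K' : ℝ := (((k + 1).factorial * K : ℕ) : ℝ) with hK'
  have hK0 : 0 ≤ K' := Nat.cast_nonneg _
  set T : ℝ := 12 * (k + 2) * K' * (8 / ε) ^ (k + 1) * (2 / c) ^ (2 * (k + 1)) with hT
  obtain ⟨N, hN1, hN2, hN3, hN4⟩ := (hB.and_eventually ((lower (k + 1) A hA).and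
    ((hL.eventually_gt_atTop T).and (eventually_ge_atTop 1)))).exists
  have hN' : (0 : ℝ) < N := by exact_mod_cast hN4
  set L := LK k (Q N) (δ N) with hLdef
  have hT0 : 0 ≤ T := by rw [hT]; positivity
  have hLp : 0 < L := lt_of_le_of_lt hT0 hN3
  set S : ℕ → ℂ := SK k (Q N) (δ N) (φ N) with hS
  set F := (seg A N).filter fun a => c * L ≤ ‖S a‖ with hF
  have hFs : F ⊆ seg A N := filter_subset _ _
  have hcardF : {a : ℕ | a ∈ A ∧ 1 ≤ a ∧ a ≤ N ∧ c * L ≤ ‖S a‖}.ncard = F.card := by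
    rw [← Set.ncard_coe_finset]
    congr 1
    ext a
    rw [hF, mem_coe, mem_filter, mem_seg]
    constructor
    · rintro ⟨h1, h2, h3, h4⟩
      exact ⟨⟨⟨h2, h3⟩, h1⟩, h4⟩
    · rintro ⟨⟨⟨h2, h3⟩, h1⟩, h4⟩
      exact ⟨h1, h2, h3, h4⟩
  rw [hcardF] at hN1
  -- a direction
  set G : ℕ → Finset ℕ := fun j => F.filter fun a => ‖S a‖ / 2 ≤ dir j (S a) with hG
  have hcov : F ⊆ (range 4).biUnion G := by
    intro a ha
    obtain ⟨j, hj, hj2⟩ := exists_dir (S a)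
    rw [mem_biUnion]
    exact ⟨j, hj, mem_filter.2 ⟨ha, hj2⟩⟩
  have hcard : F.card ≤ ∑ j ∈ range 4, (G j).card :=
    (card_le_card hcov).trans card_biUnion_le
  obtain ⟨j, -, hj⟩ : ∃ j ∈ range 4, F.card ≤ 4 * (G j).card := by
    by_contra hcon
    push Not at hcon
    have h1 : ∑ j ∈ range 4, 4 * (G j).card < ∑ _j ∈ range 4, F.card :=
      sum_lt_sum_of_nonempty ⟨0, by decide⟩ fun j hj => hcon j hj
    rw [← mul_sum, sum_const, card_range, smul_eq_mul] at h1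
    omega
  have hGF : G j ⊆ F := filter_subset _ _
  set g : ℝ := ((G j).card : ℝ) with hg
  have h1 : g * (c * L / 2) ≤ ‖∑ a ∈ G j, S a‖ := by
    refine le_trans ?_ (dir_le j _)
    rw [dir_sum, hg, ← nsmul_eq_mul, ← sum_const]
    refine sum_le_sum fun a ha => ?_
    have h2 := (mem_filter.1 ha).2
    have h3 := (mem_filter.1 (hGF ha)).2
    linarith
  have h2 : ‖∑ a ∈ G j, S a‖ ≤
      ∑ q ∈ Q N, δ N q ^ (2 * k + 1) / (Nat.totient q : ℝ) ^ k * ‖∑ a ∈ G j, φ N q a‖ := by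
    have e : ∑ a ∈ G j, S a =
        ∑ q ∈ Q N, ((δ N q ^ (2 * k + 1) / (Nat.totient q : ℝ) ^ k : ℝ) : ℂ) *
          ∑ a ∈ G j, φ N q a := by
      rw [hS]
      unfold SK
      rw [sum_comm]
      exact sum_congr rfl fun q _ => by rw [mul_sum]
    rw [e]
    refine (norm_sum_le _ _).trans (le_of_eq ?_)
    refine sum_congr rfl fun q _ => ?_
    rw [norm_mul, Complex.norm_real, Real.norm_eq_abs, abs_of_nonneg]
    exact div_nonneg (pow_nonneg (hδ N q) _) (by positivity)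
  have h3 := hoelderK k (Q N) (δ N) (fun q => ‖∑ a ∈ G j, φ N q a‖) (hδ N)
    (fun _ => norm_nonneg _) hLp
  have h4 := upper k K A hcon (hGF.trans hFs) (Q N) (hQ N) (φ N) (h N)
  rw [← hK', ← hg] at h4
  have hgn : 0 ≤ g := Nat.cast_nonneg _
  have h6 : (g * (c * L / 2)) ^ (2 * (k + 1)) ≤
      L ^ (2 * k + 1) * (6 * (k + 2) * N * (K' * g ^ (k + 1))) := by
    calc (g * (c * L / 2)) ^ (2 * (k + 1))
        ≤ (∑ q ∈ Q N, δ N q ^ (2 * k + 1) / (Nat.totient q : ℝ) ^ k *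
            ‖∑ a ∈ G j, φ N q a‖) ^ (2 * (k + 1)) :=
          pow_le_pow_left₀ (by positivity) (h1.trans h2) _
      _ ≤ _ := h3
      _ ≤ _ := mul_le_mul_of_nonneg_left h4 (by positivity)
  -- the number of elements of `G j`
  have hM1 : (1 : ℝ) ≤ (seg A N).card := by exact_mod_cast hN2.1
  set M : ℝ := ((seg A N).card : ℝ) with hM
  have hgM : ε / 4 * M ≤ g := by
    have h8 : (F.card : ℝ) ≤ 4 * g := by rw [hg]; exact_mod_cast hj
    linarith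
  have hgpos : 0 < g := lt_of_lt_of_le (by positivity) hgM
  have h7 : (c / 2) ^ (2 * (k + 1)) * L * g ^ (k + 1) ≤ 6 * (k + 2) * N * K' := by
    have hp : 0 < L ^ (2 * k + 1) * g ^ (k + 1) := by positivity
    refine le_of_mul_le_mul_left ?_ hp
    calc L ^ (2 * k + 1) * g ^ (k + 1) * ((c / 2) ^ (2 * (k + 1)) * L * g ^ (k + 1))
        = (g * (c * L / 2)) ^ (2 * (k + 1)) := by
          have e1 : g ^ (2 * (k + 1)) = g ^ (k + 1) * g ^ (k + 1) := by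
            rw [← pow_add]; congr 1; ring
          have e2 : L ^ (2 * (k + 1)) = L ^ (2 * k + 1) * L := by
            rw [← pow_succ]; congr 1
          rw [show g * (c * L / 2) = g * ((c / 2) * L) by ring, mul_pow, mul_pow, e1, e2]
          ring
      _ ≤ _ := h6
      _ = _ := by ring
  have h8 : (N : ℝ) / 2 * (ε / 8) ^ (k + 1) ≤ g ^ (k + 1) := by
    calc (N : ℝ) / 2 * (ε / 8) ^ (k + 1) ≤ (2 * M) ^ (k + 1) * (ε / 8) ^ (k + 1) :=
          mul_le_mul_of_nonneg_right hN2.2 (by positivity)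
      _ = (ε / 4 * M) ^ (k + 1) := by rw [← mul_pow]; congr 1; ring
      _ ≤ g ^ (k + 1) := pow_le_pow_left₀ (by positivity) hgM _
  have h9 : (N : ℝ) * L ≤ N * T := by
    have h10 : (c / 2) ^ (2 * (k + 1)) * L * ((N : ℝ) / 2 * (ε / 8) ^ (k + 1)) ≤
        6 * (k + 2) * N * K' :=
      (mul_le_mul_of_nonneg_left h8 (by positivity)).trans h7
    have hc1 : (c / 2) ^ (2 * (k + 1)) * (2 / c) ^ (2 * (k + 1)) = 1 := by
      rw [← mul_pow]
      rw [show c / 2 * (2 / c) = 1 by field_simp, one_pow]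
    have hε1 : (ε / 8) ^ (k + 1) * (8 / ε) ^ (k + 1) = 1 := by
      rw [← mul_pow]
      rw [show ε / 8 * (8 / ε) = 1 by field_simp, one_pow]
    calc (N : ℝ) * L = ((c / 2) ^ (2 * (k + 1)) * (2 / c) ^ (2 * (k + 1))) *
          ((ε / 8) ^ (k + 1) * (8 / ε) ^ (k + 1)) * (N * L) := by rw [hc1, hε1]; ring
      _ = 2 * ((2 / c) ^ (2 * (k + 1)) * (8 / ε) ^ (k + 1)) *
          ((c / 2) ^ (2 * (k + 1)) * L * ((N : ℝ) / 2 * (ε / 8) ^ (k + 1))) := by ring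
      _ ≤ 2 * ((2 / c) ^ (2 * (k + 1)) * (8 / ε) ^ (k + 1)) * (6 * (k + 2) * N * K') :=
          mul_le_mul_of_nonneg_left h10 (by positivity)
      _ = N * T := by rw [hT]; ring
  have h10 := le_of_mul_le_mul_left h9 hN'
  linarith

end Pool.Agent.T4h91.HR
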