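import Pool.Agent.T4h91.HR.Bias

set_option autoImplicit false

/-! Bases of order `h` in biased or few residue classes modulo primes. -/

open Finset Filter Topology

namespace Pool.Agent.T4h91.HR

open Pool.Agent.Helper112 Pool.Agent.TH314.ET Pool.Agent.T4h91.BR

theorem sets_h (k : ℕ) (A : Set ℕ) (hA : IsB (k + 1) A) (S : ℕ → Finset ℕ)
    (hS : ∀ p, S p ⊆ range p) (β : ℕ → ℝ) (hβ : ∀ p, 0 ≤ β p)
    (hb : ∀ p : ℕ, p.Prime → ∀ᶠ N : ℕ in atTop, (((S p).card : ℝ) / p + β p) * (seg A N).card ≤
      (((seg A N).filter (fun a => a % p ∈ S p)).card : ℝ))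
    (hdiv : ¬ Summable fun p : ℕ => if p.Prime then
      β p ^ (2 * (k + 1)) / ((((S p).card : ℝ) / p * (1 - ((S p).card : ℝ) / p)) ^ (k + 1) *
        ((p : ℝ) - 1) ^ k) else 0)
    (K : ℕ) : ∃ n, K < urep A (k + 1) n := by
  classical
  set σ : ℕ → ℝ := fun p => ((S p).card : ℝ) / p with hσ
  set δ : ℕ → ℝ := fun p => if p.Prime then β p / √(σ p * (1 - σ p)) else 0 with hδ
  have hδ0 : ∀ q, 0 ≤ δ q := by
    intro q
    simp only [hδ]
    split_ifs
    · exact div_nonneg (hβ q) (Real.sqrt_nonneg _)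
    · exact le_refl _
  have hpos : ∀ q, 0 < δ q → q.Prime ∧ 0 < √(σ q * (1 - σ q)) := by
    intro q hq
    simp only [hδ] at hq
    split_ifs at hq with hp
    · refine ⟨hp, ?_⟩
      rcases (Real.sqrt_nonneg (σ q * (1 - σ q))).eq_or_lt with h | h
      · rw [← h, div_zero] at hq
        exact absurd hq (lt_irrefl _)
      · exact h
    · exact absurd hq (lt_irrefl _)
  refine fixed_h k A hA (fun q => indS q (S q)) δ hδ0 (fun q hq => ?_) (fun q hq => ?_) ?_ K
  · exact prim_set (hpos q hq).1 (S q) (hS q) (hpos q hq).2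
  · obtain ⟨hp, hs⟩ := hpos q hq
    filter_upwards [hb q hp] with N hN
    have e : ∑ a ∈ seg A N, indS q (S q) a =
        ((((((seg A N).filter (fun a => a % q ∈ S q)).card : ℝ) - σ q * (seg A N).card) /
          √(σ q * (1 - σ q)) : ℝ) : ℂ) := by
      unfold indS
      rw [← Complex.ofReal_sum, ← sum_div, sum_sub_distrib, sum_const, nsmul_eq_mul,
        mul_comm ((seg A N).card : ℝ)]
      congr 3
      rw [← sum_filter, sum_const, nsmul_eq_mul, mul_one]
    have hδq : δ q = β q / √(σ q * (1 - σ q)) := by simp only [hδ, if_pos hp]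
    rw [e, Complex.norm_real, Real.norm_eq_abs, hδq]
    refine le_trans ?_ (le_abs_self _)
    rw [div_mul_eq_mul_div]
    apply div_le_div_of_nonneg_right _ hs.le
    have hσq : σ q = ((S q).card : ℝ) / q := rfl
    rw [hσq]
    linarith
  · intro hsum
    apply hdiv
    refine hsum.congr fun p => ?_
    simp only [hδ]
    split_ifs with hp
    · have hpr : (0 : ℝ) < p := by exact_mod_cast hp.pos
      have h1 : (S p).card ≤ p := by
        have := card_le_card (hS p)
        rwa [card_range] at this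
      have h2 : σ p ≤ 1 := by
        simp only [hσ]
        rw [div_le_one hpr]
        exact_mod_cast h1
      have h3 : 0 ≤ σ p := by simp only [hσ]; positivity
      have h4 : 0 ≤ σ p * (1 - σ p) := mul_nonneg h3 (by linarith)
      have h5 : √(σ p * (1 - σ p)) ^ (2 * (k + 1)) = (σ p * (1 - σ p)) ^ (k + 1) := by
        rw [pow_mul, Real.sq_sqrt h4]
      rw [div_pow, h5, Nat.totient_prime hp, Nat.cast_sub hp.one_lt.le, Nat.cast_one, div_div]
    · rw [zero_pow (by omega), zero_div]

lemma basis_nonempty (k : ℕ) (A : Set ℕ) (hA : IsB (k + 1) A) (N : ℕ) :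
    ∃ a ∈ A, N ≤ (k + 1) * a := by
  classical
  obtain ⟨n₀, hn₀⟩ := hA
  obtain ⟨s, hs1, hs2, hs3⟩ := hn₀ (max n₀ N) (le_max_left _ _)
  by_contra hcon
  push Not at hcon
  have h1 : s.sum * (k + 1) ≤ (Multiset.card s) * (N - 1) := by
    have h2 : ∀ a ∈ s, (k + 1) * a ≤ N - 1 := by
      intro a ha
      have := hcon a (hs2 a ha)
      omega
    have h3 : (s.map (fun a => (k + 1) * a)).sum ≤ Multiset.card (s.map (fun a => (k + 1) * a)) • (N - 1) :=
      Multiset.sum_le_card_nsmul _ _ (by
        intro x hx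
        obtain ⟨a, ha, rfl⟩ := Multiset.mem_map.1 hx
        exact h2 a ha)
    rw [Multiset.card_map, smul_eq_mul, Multiset.sum_map_mul_left, Multiset.map_id'] at h3
    rw [mul_comm]
    exact h3
  rw [hs1, hs3] at h1
  have h4 : N ≤ max n₀ N := le_max_right _ _
  rcases Nat.eq_zero_or_pos N with h0 | h0
  · subst h0
    have h5 : s ≠ 0 := by
      intro h
      rw [h, Multiset.card_zero] at hs1
      omega
    obtain ⟨a, ha⟩ := Multiset.exists_mem_of_ne_zero h5
    have := hcon a (hs2 a ha)
    omega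
  · have h5 : N * (k + 1) ≤ max n₀ N * (k + 1) := Nat.mul_le_mul_right _ h4
    have h6 : (k + 1) * (N - 1) < N * (k + 1) := by
      rw [mul_comm]
      apply Nat.mul_lt_mul_of_pos_right <;> omega
    omega

/-- bases in few residue classes -/
theorem few_h (k : ℕ) (A : Set ℕ) (hA : IsB (k + 1) A) (P : Set ℕ) (hP : ∀ p ∈ P, p.Prime)
    (S : ℕ → Finset ℕ) (hS : ∀ p, S p ⊆ range p) (hAS : ∀ p ∈ P, ∀ a ∈ A, a % p ∈ S p)
    (h2 : ∀ p ∈ P, 2 * (S p).card ≤ p)
    (hdiv : ¬ Summable (P.indicator fun p : ℕ => (p : ℝ) / ((S p).card : ℝ) ^ (k + 1))) (K : ℕ) :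
    ∃ n, K < urep A (k + 1) n := by
  classical
  obtain ⟨a₀, ha₀, -⟩ := basis_nonempty k A hA 0
  set S' : ℕ → Finset ℕ := fun p => if p ∈ P then S p else range p with hS'
  have hS's : ∀ p, S' p ⊆ range p := by
    intro p
    simp only [hS']
    split_ifs
    · exact hS p
    · exact Subset.refl _
  refine sets_h k A hA S' hS's (fun p => 1 - ((S' p).card : ℝ) / p) (fun p => ?_) (fun p hp => ?_) ?_ K
  · have h1 : (S' p).card ≤ p := by
      have := card_le_card (hS's p)
      rwa [card_range] at this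
    have h3 : ((S' p).card : ℝ) ≤ p := by exact_mod_cast h1
    have h4 : ((S' p).card : ℝ) / p ≤ 1 := div_le_one_of_le₀ h3 (Nat.cast_nonneg _)
    linarith
  · refine Eventually.of_forall fun N => ?_
    have h1 : (seg A N).filter (fun a => a % p ∈ S' p) = seg A N := by
      apply filter_true_of_mem
      intro a ha
      simp only [hS']
      split_ifs with h
      · exact hAS p h a (mem_seg.1 ha).2
      · exact mem_range.2 (Nat.mod_lt _ hp.pos)
    rw [h1]
    apply le_of_eq
    ring
  · intro hsum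
    apply hdiv
    have h3 := hsum.mul_left ((2 : ℝ) ^ (k + 1))
    refine Summable.of_nonneg_of_le (fun p => ?_) (fun p => ?_) h3
    · exact Set.indicator_nonneg (fun _ _ => by positivity) _
    · by_cases hpP : p ∈ P
      · have hp := hP p hpP
        rw [Set.indicator_of_mem hpP, if_pos hp]
        have hS'p : S' p = S p := by simp only [hS', if_pos hpP]
        rw [hS'p]
        have hp1 : (1 : ℝ) < p := by exact_mod_cast hp.one_lt
        have hp0 : (0 : ℝ) < p := by linarith
        have hs1 : 1 ≤ (S p).card := card_pos.2 ⟨_, hAS p hpP a₀ ha₀⟩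
        have hs1r : (1 : ℝ) ≤ (S p).card := by exact_mod_cast hs1
        set s : ℝ := ((S p).card : ℝ) with hs
        have hs0 : 0 < s := by linarith
        have h2p : 2 * s ≤ p := by rw [hs]; exact_mod_cast h2 p hpP
        have hσ : s / p ≤ 1 / 2 := by
          rw [div_le_iff₀ hp0]; linarith
        have hσ0 : 0 < s / p := by positivity
        have h1σ : 0 < 1 - s / p := by linarith
        have e1 : (1 - s / p) ^ (2 * (k + 1)) / ((s / p * (1 - s / p)) ^ (k + 1) * ((p : ℝ) - 1) ^ k) =
            ((1 - s / p) / (s / p)) ^ (k + 1) / ((p : ℝ) - 1) ^ k := by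
          have e2 : (1 - s / p) ^ (2 * (k + 1)) = (1 - s / p) ^ (k + 1) * (1 - s / p) ^ (k + 1) := by
            rw [← pow_add]; congr 1; ring
          rw [e2, mul_pow, div_pow (1 - s / p) (s / p) (k + 1)]
          have h5 : (1 - s / p) ^ (k + 1) ≠ 0 := pow_ne_zero _ h1σ.ne'
          have h6 : (s / p) ^ (k + 1) ≠ 0 := pow_ne_zero _ hσ0.ne'
          have h7 : ((p : ℝ) - 1) ^ k ≠ 0 := by
            have : 0 < (p : ℝ) - 1 := by linarith
            exact pow_ne_zero _ this.ne'
          generalize (1 - s / (p : ℝ)) ^ (k + 1) = u at *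
          generalize (s / (p : ℝ)) ^ (k + 1) = v at *
          generalize ((p : ℝ) - 1) ^ k = w at *
          field_simp
        rw [e1]
        have h8 : (p / (2 * s)) ^ (k + 1) ≤ ((1 - s / p) / (s / p)) ^ (k + 1) := by
          apply pow_le_pow_left₀ (by positivity)
          rw [le_div_iff₀ hσ0]
          have : (p : ℝ) / (2 * s) * (s / p) = 1 / 2 := by field_simp
          rw [this]; linarith
        have h9 : (p / (2 * s)) ^ (k + 1) / (p : ℝ) ^ k ≤
            ((1 - s / p) / (s / p)) ^ (k + 1) / ((p : ℝ) - 1) ^ k := by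
          apply div_le_div₀ (by positivity) h8
          · have : 0 < (p : ℝ) - 1 := by linarith
            positivity
          · exact pow_le_pow_left₀ (by linarith) (by linarith) k
        refine le_trans ?_ (mul_le_mul_of_nonneg_left h9 (by positivity))
        apply le_of_eq
        rw [div_pow, mul_pow, pow_succ (p : ℝ) k]
        field_simp
      · rw [Set.indicator_of_notMem hpP]
        apply mul_nonneg (by positivity)
        split_ifs with hp
        · have h1 : (S' p).card ≤ p := by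
            have := card_le_card (hS's p)
            rwa [card_range] at this
          have hp1 : (1 : ℝ) < p := by exact_mod_cast hp.one_lt
          have h3' : ((S' p).card : ℝ) ≤ p := by exact_mod_cast h1
          have h4 : ((S' p).card : ℝ) / p ≤ 1 := div_le_one_of_le₀ h3' (Nat.cast_nonneg _)
          have h5 : 0 ≤ 1 - ((S' p).card : ℝ) / p := by linarith
          have h6 : 0 ≤ (p : ℝ) - 1 := by linarith
          exact div_nonneg (pow_nonneg h5 _) (mul_nonneg (pow_nonneg (mul_nonneg
            (div_nonneg (Nat.cast_nonneg _) (Nat.cast_nonneg _)) h5) _) (pow_nonneg h6 _))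
        · exact le_refl _

/-- economical bases modulo infinitely many primes -/
theorem thin_h (k : ℕ) (hk : 1 ≤ k) (A : Set ℕ) (hA : IsB (k + 1) A) (P : Set ℕ)
    (hP : ∀ p ∈ P, p.Prime) (hPi : P.Infinite)
    (S : ℕ → Finset ℕ) (hS : ∀ p, S p ⊆ range p) (hAS : ∀ p ∈ P, ∀ a ∈ A, a % p ∈ S p) (C : ℝ)
    (hC : ∀ p ∈ P, ((S p).card : ℝ) ^ (k + 1) ≤ C * p) (K : ℕ) :
    ∃ n, K < urep A (k + 1) n := by
  classical
  obtain ⟨a₀, ha₀, -⟩ := basis_nonempty k A hA 0
  set P' : Set ℕ := {p ∈ P | 4 * C ≤ p} with hP'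
  have hP'i : P'.Infinite := by
    have h1 : (P \ {p : ℕ | (p : ℝ) < 4 * C}).Infinite := by
      apply hPi.sdiff
      refine (Set.finite_Iic ⌈4 * C⌉₊).subset fun p hp => ?_
      have hp' : (p : ℝ) < 4 * C := hp
      have := hp'.trans_le (Nat.le_ceil (4 * C))
      exact_mod_cast this.le
    refine h1.mono fun p hp => ⟨hp.1, ?_⟩
    exact not_lt.1 hp.2
  have hs1 : ∀ p ∈ P, (1 : ℝ) ≤ (S p).card := by
    intro p hp
    have : 1 ≤ (S p).card := card_pos.2 ⟨_, hAS p hp a₀ ha₀⟩
    exact_mod_cast this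
  refine few_h k A hA P' (fun p hp => hP p hp.1) S hS (fun p hp => hAS p hp.1) (fun p hp => ?_) ?_ K
  · have h1 := hs1 p hp.1
    have hp0 : (0 : ℝ) < p := by exact_mod_cast (hP p hp.1).pos
    have h2 : ((S p).card : ℝ) ^ 2 ≤ ((S p).card : ℝ) ^ (k + 1) :=
      pow_le_pow_right₀ h1 (by omega)
    have h3 : (2 * ((S p).card : ℝ)) ^ 2 ≤ (p : ℝ) ^ 2 := by
      have h4 := hC p hp.1
      have h5 := mul_le_mul_of_nonneg_right hp.2 hp0.le
      nlinarith
    have h4 : 2 * ((S p).card : ℝ) ≤ p := le_of_sq_le_sq h3 hp0.le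
    exact_mod_cast h4
  · intro hsum
    have h0 : 0 < C := by
      obtain ⟨p, hp⟩ := hPi.nonempty
      have h1 := hs1 p hp
      have h2 := hC p hp
      have hp0 : (0 : ℝ) < p := by exact_mod_cast (hP p hp).pos
      have h3 : 0 < C * p := lt_of_lt_of_le (by positivity) h2
      exact pos_of_mul_pos_left h3 hp0.le
    have h1 := hsum.tendsto_cofinite_zero
    have h2 : ∀ᶠ p in cofinite, P'.indicator (fun p : ℕ => (p : ℝ) / ((S p).card : ℝ) ^ (k + 1)) p <
        1 / C := h1.eventually_lt_const (by positivity)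
    rw [Filter.eventually_cofinite] at h2
    apply hP'i
    refine h2.subset fun p hp => ?_
    simp only [Set.mem_ofPred_eq, not_lt]
    rw [Set.indicator_of_mem hp]
    have h3 := hs1 p hp.1
    rw [div_le_div_iff₀ h0 (by positivity)]
    have := hC p hp.1
    linarith

end Pool.Agent.T4h91.HR
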