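import Pool.Agent.T4h91.HR.Rep

set_option autoImplicit false

/-! Biased bases of order `h`. -/

open Finset Filter Topology

namespace Pool.Agent.T4h91.HR

open Pool.Agent.Helper112 Pool.Agent.TH314.ET Pool.Agent.T4h91.BR

/-- one modulus, mean square -/
lemma l2 (F : Finset ℕ) {q : ℕ} {φ : ℕ → ℂ} (h : Prim q φ) (hq : 0 < q) :
    ‖∑ a ∈ F, φ a‖ ^ 2 ≤
      ∑ b ∈ (range q).filter (fun b => b.Coprime q), ‖Sf (ind F) (b / q)‖ ^ 2 := by
  classical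
  set R := (range q).filter (fun b => b.Coprime q) with hR
  set g : ℕ → ℂ := fun b => ∑ c ∈ range q, (starRingEnd ℂ) (φ c) * ee (b * ((c : ℝ) / q)) with hg
  set f : ℕ → ℂ := fun b => Sf (ind F) (b / q) with hf
  have hqr : (0 : ℝ) < q := by exact_mod_cast hq
  have h1 : ∑ b ∈ range q, (starRingEnd ℂ) (g b) * f b = q * ∑ a ∈ F, φ a := by
    rw [sum_cls F h hq]
    have h2 : ∀ b ∈ range q, (starRingEnd ℂ) (g b) * f b = ∑ c ∈ range q, ∑ d ∈ range q,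
        φ c * (cls F q d : ℂ) * (ee (b * ((d : ℝ) / q)) * (starRingEnd ℂ) (ee (b * ((c : ℝ) / q)))) := by
      intro b _
      simp only [hg, hf]
      rw [Sf_cls F hq, map_sum, sum_mul_sum]
      refine sum_congr rfl fun c _ => sum_congr rfl fun d _ => ?_
      rw [map_mul, Complex.conj_conj]
      ring
    rw [sum_congr rfl h2, sum_comm, mul_sum]
    refine sum_congr rfl fun c hc => ?_
    rw [sum_comm]
    have h3 : ∀ d ∈ range q, ∑ b ∈ range q,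
        φ c * (cls F q d : ℂ) * (ee (b * ((d : ℝ) / q)) * (starRingEnd ℂ) (ee (b * ((c : ℝ) / q)))) =
        if d = c then φ c * (cls F q d : ℂ) * (q : ℂ) else 0 := by
      intro d hd
      rw [← mul_sum, geom_ee q d c (mem_range.1 hd) (mem_range.1 hc)]
      split_ifs with h4
      · rfl
      · rw [mul_zero]
    rw [sum_congr rfl h3, sum_ite_eq', if_pos hc]
    ring
  have h2 : ∑ b ∈ range q, (starRingEnd ℂ) (g b) * f b = ∑ b ∈ R, (starRingEnd ℂ) (g b) * f b := by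
    rw [hR, sum_filter]
    refine sum_congr rfl fun b _ => ?_
    split_ifs with hb
    · rfl
    · have : g b = 0 := dft_zero (prim_conj h) hq b hb
      rw [this, map_zero, zero_mul]
  have h3 : (q : ℝ) * ‖∑ a ∈ F, φ a‖ ≤ ∑ b ∈ R, ‖g b‖ * ‖f b‖ := by
    calc (q : ℝ) * ‖∑ a ∈ F, φ a‖ = ‖(q : ℂ) * ∑ a ∈ F, φ a‖ := by
          rw [norm_mul, Complex.norm_natCast]
      _ = ‖∑ b ∈ R, (starRingEnd ℂ) (g b) * f b‖ := by rw [← h1, h2]
      _ ≤ ∑ b ∈ R, ‖(starRingEnd ℂ) (g b) * f b‖ := norm_sum_le _ _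
      _ = _ := by
        refine sum_congr rfl fun b _ => ?_
        rw [norm_mul, RCLike.norm_conj]
  have h4 : (∑ b ∈ R, ‖g b‖ * ‖f b‖) ^ 2 ≤ (∑ b ∈ R, ‖g b‖ ^ 2) * ∑ b ∈ R, ‖f b‖ ^ 2 :=
    sum_mul_sq_le_sq_mul_sq _ _ _
  have h5 : ∑ b ∈ R, ‖g b‖ ^ 2 ≤ (q : ℝ) ^ 2 := by
    calc ∑ b ∈ R, ‖g b‖ ^ 2 ≤ ∑ b ∈ range q, ‖g b‖ ^ 2 :=
          sum_le_sum_of_subset_of_nonneg (filter_subset _ _) fun _ _ _ => by positivity
      _ = q * ∑ c ∈ range q, ‖(starRingEnd ℂ) (φ c)‖ ^ 2 := parseval_range q _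
      _ ≤ q * q := mul_le_mul_of_nonneg_left (prim_conj h).msq hqr.le
      _ = _ := by ring
  have hf0 : 0 ≤ ∑ b ∈ R, ‖f b‖ ^ 2 := sum_nonneg fun _ _ => by positivity
  have h7 : ((q : ℝ) * ‖∑ a ∈ F, φ a‖) ^ 2 ≤ (q : ℝ) ^ 2 * ∑ b ∈ R, ‖f b‖ ^ 2 := by
    calc ((q : ℝ) * ‖∑ a ∈ F, φ a‖) ^ 2 ≤ (∑ b ∈ R, ‖g b‖ * ‖f b‖) ^ 2 :=
          pow_le_pow_left₀ (by positivity) h3 2
      _ ≤ _ := h4
      _ ≤ _ := mul_le_mul_of_nonneg_right h5 hf0
  rw [mul_pow] at h7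
  exact le_of_mul_le_mul_left h7 (by positivity)

lemma one_mod_h (F : Finset ℕ) {q : ℕ} {φ : ℕ → ℂ} (h : Prim q φ) (hq : 0 < q) (k : ℕ) :
    ‖∑ a ∈ F, φ a‖ ^ (2 * (k + 1)) / (Nat.totient q : ℝ) ^ k ≤
      ∑ b ∈ (range q).filter (fun b => b.Coprime q), ‖Sf (ind F) (b / q)‖ ^ (2 * (k + 1)) := by
  have h1 := l2 F h hq
  set R := (range q).filter (fun b => b.Coprime q) with hR
  have hcard : R.card = Nat.totient q := by rw [hR, card_coprime]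
  have ht : (0 : ℝ) < Nat.totient q := by exact_mod_cast Nat.totient_pos.2 hq
  rw [div_le_iff₀ (by positivity)]
  have h2 := pow_sum_le_card_mul_sum_pow (s := R) (f := fun b : ℕ => ‖Sf (ind F) (b / q)‖ ^ 2)
    (fun _ _ => by positivity) k
  calc ‖∑ a ∈ F, φ a‖ ^ (2 * (k + 1)) = (‖∑ a ∈ F, φ a‖ ^ 2) ^ (k + 1) := by rw [pow_mul]
    _ ≤ (∑ b ∈ R, ‖Sf (ind F) (b / q)‖ ^ 2) ^ (k + 1) := pow_le_pow_left₀ (by positivity) h1 _
    _ ≤ _ := h2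
    _ = _ := by
      rw [hcard, mul_comm]
      congr 1
      exact sum_congr rfl fun b _ => by rw [← pow_mul]

lemma big (k : ℕ) {F : Finset ℕ} {N : ℕ} (hF : F ⊆ Icc 1 N) (Q : Finset ℕ)
    (hQ : Q ⊆ Icc 1 (Nat.sqrt N)) (φ : ℕ → ℕ → ℂ) (h : ∀ q ∈ Q, Prim q (φ q)) :
    ∑ q ∈ Q, ‖∑ a ∈ F, φ q a‖ ^ (2 * (k + 1)) / (Nat.totient q : ℝ) ^ k ≤
      6 * (k + 2) * N * ∑ n ∈ Icc 1 ((k + 1) * N), (R (k + 1) F n : ℝ) ^ 2 := by
  have h0 : ∑ q ∈ Q, ‖∑ a ∈ F, φ q a‖ ^ (2 * (k + 1)) / (Nat.totient q : ℝ) ^ k ≤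
      6 * (((k + 1 : ℕ) : ℝ) * N + ((Nat.sqrt N : ℕ) : ℝ) ^ 2) *
        ∑ n ∈ Icc 1 ((k + 1) * N), (R (k + 1) F n : ℝ) ^ 2 := by
    refine le_trans ?_ (moment (by omega) hF (Nat.sqrt N))
    calc ∑ q ∈ Q, ‖∑ a ∈ F, φ q a‖ ^ (2 * (k + 1)) / (Nat.totient q : ℝ) ^ k
        ≤ ∑ q ∈ Q, ∑ a ∈ (range q).filter (fun a => a.Coprime q),
            ‖Sf (ind F) (a / q)‖ ^ (2 * (k + 1)) := by
          refine sum_le_sum fun q hq => ?_
          exact one_mod_h _ (h q hq) (mem_Icc.1 (hQ hq)).1 k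
      _ ≤ _ := sum_le_sum_of_subset_of_nonneg hQ fun _ _ _ => by positivity
  refine h0.trans ?_
  have h1 : ((Nat.sqrt N : ℕ) : ℝ) ^ 2 ≤ N := by exact_mod_cast Nat.sqrt_le' N
  have h3 : (0 : ℝ) ≤ ∑ n ∈ Icc 1 ((k + 1) * N), (R (k + 1) F n : ℝ) ^ 2 :=
    Finset.sum_nonneg fun _ _ => by positivity
  apply mul_le_mul_of_nonneg_right _ h3
  push_cast
  linarith

/-- the upper bound for a bounded representation function -/
lemma upper (k K : ℕ) (A : Set ℕ) (hK : ∀ n, urep A (k + 1) n ≤ K) {F : Finset ℕ} {N : ℕ}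
    (hF : F ⊆ seg A N) (Q : Finset ℕ)
    (hQ : Q ⊆ Icc 1 (Nat.sqrt N)) (φ : ℕ → ℕ → ℂ) (h : ∀ q ∈ Q, Prim q (φ q)) :
    ∑ q ∈ Q, ‖∑ a ∈ F, φ q a‖ ^ (2 * (k + 1)) / (Nat.totient q : ℝ) ^ k ≤
      6 * (k + 2) * N * ((((k + 1).factorial * K : ℕ) : ℝ) * (F.card : ℝ) ^ (k + 1)) := by
  have hFN : F ⊆ Icc 1 N := hF.trans (seg_sub A N)
  refine (big k hFN Q hQ φ h).trans ?_
  apply mul_le_mul_of_nonneg_left _ (by positivity)
  have h1 : ∑ n ∈ Icc 1 ((k + 1) * N), (R (k + 1) F n : ℝ) = (F.card : ℝ) ^ (k + 1) := by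
    exact_mod_cast sum_R (by omega) hFN
  rw [← h1, mul_sum]
  refine sum_le_sum fun n _ => ?_
  rw [sq]
  apply mul_le_mul_of_nonneg_right _ (Nat.cast_nonneg _)
  have h2 : R (k + 1) F n ≤ (k + 1).factorial * K :=
    (R_le A (k + 1) F (fun a ha => (mem_seg.1 (hF ha)).2) n).trans (Nat.mul_le_mul_left _ (hK n))
  exact_mod_cast h2

/-- the lower bound for the counting function of a basis -/
lemma lower (h : ℕ) (A : Set ℕ) (hA : IsB h A) : ∀ᶠ N : ℕ in atTop,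
    1 ≤ (seg A N).card ∧ (N : ℝ) / 2 ≤ (2 * ((seg A N).card : ℝ)) ^ h := by
  obtain ⟨n₀, hn₀⟩ := basis_count h A hA
  filter_upwards [eventually_ge_atTop (2 * n₀ + 4)] with N hN
  have h1 := hn₀ N
  have h2 : 1 ≤ (seg A N).card := by
    by_contra hcon
    have h3 : (seg A N).card = 0 := by omega
    rw [h3, zero_add, one_pow] at h1
    omega
  refine ⟨h2, ?_⟩
  have h3 : N ≤ 2 * (N + 1 - n₀) := by omega
  have h4 : N ≤ 2 * ((seg A N).card + 1) ^ h := by omega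
  have h5 : (N : ℝ) ≤ 2 * (((seg A N).card : ℝ) + 1) ^ h := by exact_mod_cast h4
  have h6 : (1 : ℝ) ≤ (seg A N).card := by exact_mod_cast h2
  have h7 : (((seg A N).card : ℝ) + 1) ^ h ≤ (2 * ((seg A N).card : ℝ)) ^ h :=
    pow_le_pow_left₀ (by positivity) (by linarith) h
  linarith

/-- fixed biases -/
theorem fixed_h (k : ℕ) (A : Set ℕ) (hA : IsB (k + 1) A) (φ : ℕ → ℕ → ℂ) (δ : ℕ → ℝ)
    (hδ : ∀ q, 0 ≤ δ q) (hφ : ∀ q, 0 < δ q → Prim q (φ q))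
    (hb' : ∀ q, 0 < δ q → ∀ᶠ N : ℕ in atTop, δ q * (seg A N).card ≤ ‖∑ a ∈ seg A N, φ q a‖)
    (hdiv : ¬ Summable fun q : ℕ => δ q ^ (2 * (k + 1)) / (Nat.totient q : ℝ) ^ k) (K : ℕ) :
    ∃ n, K < urep A (k + 1) n := by
  classical
  by_contra hcon
  push Not at hcon
  apply hdiv
  set f : ℕ → ℝ := fun q => δ q ^ (2 * (k + 1)) / (Nat.totient q : ℝ) ^ k with hf
  have hf0 : ∀ p, 0 ≤ f p := fun p => div_nonneg (pow_nonneg (hδ p) _) (by positivity)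
  -- drop the modulus zero
  have hlow := lower (k + 1) A hA
  set B : ℝ := f 0 + 12 * (k + 2) * (((k + 1).factorial * K : ℕ) : ℝ) * 2 ^ (k + 1) with hB
  refine summable_of_sum_range_le (c := B) hf0 fun m => ?_
  have hev : ∀ᶠ N : ℕ in atTop, ∀ q ∈ range m, 0 < δ q →
      δ q * (seg A N).card ≤ ‖∑ a ∈ seg A N, φ q a‖ := by
    rw [Filter.eventually_all_finset]
    intro q _
    by_cases h : 0 < δ q
    · filter_upwards [hb' q h] with N hN _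
      exact hN
    · exact Eventually.of_forall fun N h' => absurd h' h
  obtain ⟨N, hN2, hN3, hN4⟩ := ((eventually_ge_atTop ((m + 1) ^ 2)).and (hlow.and hev)).exists
  have hN0 : 0 < N := lt_of_lt_of_le (by positivity) hN2
  have hN' : (0 : ℝ) < N := by exact_mod_cast hN0
  have hsq : m + 1 ≤ Nat.sqrt N := by
    rw [Nat.le_sqrt']
    exact hN2
  set Q := ((range m).erase 0).filter (fun q => 0 < δ q) with hQ
  have h1 := upper k K A hcon (F := seg A N) (Subset.refl _) Q (by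
    intro q hq
    rw [hQ, mem_filter, mem_erase, mem_range] at hq
    rw [mem_Icc]
    omega) φ (fun q hq => hφ q (mem_filter.1 hq).2)
  set M : ℝ := ((seg A N).card : ℝ) with hM
  have hM1 : (1 : ℝ) ≤ M := by rw [hM]; exact_mod_cast hN3.1
  have hM0 : 0 < M := by linarith
  have h3 : M ^ (2 * (k + 1)) * ∑ q ∈ Q, f q ≤
      ∑ q ∈ Q, ‖∑ a ∈ seg A N, φ q a‖ ^ (2 * (k + 1)) / (Nat.totient q : ℝ) ^ k := by
    rw [mul_sum]
    refine sum_le_sum fun q hq => ?_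
    rw [hQ, mem_filter, mem_erase] at hq
    simp only [hf]
    rw [← mul_div_assoc]
    apply div_le_div_of_nonneg_right _ (by positivity)
    rw [← mul_pow, mul_comm]
    exact pow_le_pow_left₀ (mul_nonneg (hδ q) hM0.le) (hN4 q hq.1.2 hq.2) _
  have h4 : M ^ (k + 1) * ∑ q ∈ Q, f q ≤
      6 * (k + 2) * N * (((k + 1).factorial * K : ℕ) : ℝ) := by
    have h5 := h3.trans h1
    have e1 : M ^ (2 * (k + 1)) = M ^ (k + 1) * M ^ (k + 1) := by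
      rw [← pow_add]; congr 1; ring
    have hMk : 0 < M ^ (k + 1) := by positivity
    refine le_of_mul_le_mul_left ?_ hMk
    calc M ^ (k + 1) * (M ^ (k + 1) * ∑ q ∈ Q, f q) = M ^ (2 * (k + 1)) * ∑ q ∈ Q, f q := by
          rw [e1]; ring
      _ ≤ _ := h5
      _ = _ := by ring
  have hs0 : 0 ≤ ∑ q ∈ Q, f q := sum_nonneg fun q _ => hf0 q
  have h5 : (N : ℝ) * ∑ q ∈ Q, f q ≤
      N * (12 * (k + 2) * (((k + 1).factorial * K : ℕ) : ℝ) * 2 ^ (k + 1)) := by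
    have h6 : (N : ℝ) ≤ 2 * (2 ^ (k + 1) * M ^ (k + 1)) := by
      have := hN3.2
      rw [mul_pow] at this
      linarith
    calc (N : ℝ) * ∑ q ∈ Q, f q ≤ 2 * (2 ^ (k + 1) * M ^ (k + 1)) * ∑ q ∈ Q, f q :=
          mul_le_mul_of_nonneg_right h6 hs0
      _ = 2 * 2 ^ (k + 1) * (M ^ (k + 1) * ∑ q ∈ Q, f q) := by ring
      _ ≤ 2 * 2 ^ (k + 1) * (6 * (k + 2) * N * (((k + 1).factorial * K : ℕ) : ℝ)) :=
          mul_le_mul_of_nonneg_left h4 (by positivity)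
      _ = _ := by ring
  have h6 := le_of_mul_le_mul_left h5 hN'
  have h7 : ∑ q ∈ range m, f q ≤ f 0 + ∑ q ∈ Q, f q := by
    have h8 : ∑ q ∈ (range m).erase 0, f q = ∑ q ∈ Q, f q := by
      rw [hQ, sum_filter]
      refine sum_congr rfl fun q _ => ?_
      split_ifs with h
      · rfl
      · have h9 : δ q = 0 := le_antisymm (not_lt.1 h) (hδ q)
        simp only [hf]
        rw [h9, zero_pow (by omega), zero_div]
    rw [← h8]
    by_cases h0 : 0 ∈ range m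
    · rw [add_sum_erase _ _ h0]
    · rw [erase_eq_of_notMem h0]
      have := hf0 0
      linarith
  rw [hB]
  linarith

end Pool.Agent.T4h91.HR
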