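import Pool.Agent.T4h91.BR.Ex

set_option autoImplicit false

/-! Representations as sums of `h` elements: ordered and unordered. -/

open Finset Filter Topology

namespace Pool.Agent.T4h91.HR

open Pool.Agent.Helper112 Pool.Agent.TH314.ET

/-- ordered `h`-tuples of elements of `F` with sum `n` -/
def R (h : ℕ) (F : Finset ℕ) (n : ℕ) : ℕ :=
  ((Fintype.piFinset (fun _ : Fin h => F)).filter (fun v => ∑ i, v i = n)).card

/-- the unordered representation function -/
noncomputable def urep (A : Set ℕ) (h n : ℕ) : ℕ :=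
  {s : Multiset ℕ | Multiset.card s = h ∧ (∀ a ∈ s, a ∈ A) ∧ s.sum = n}.ncard

/-- asymptotic bases of order `h` -/
def IsB (h : ℕ) (A : Set ℕ) : Prop :=
  ∃ N : ℕ, ∀ n : ℕ, N ≤ n → ∃ s : Multiset ℕ, Multiset.card s = h ∧ (∀ a ∈ s, a ∈ A) ∧ s.sum = n

lemma exists_fn (h : ℕ) (s : Multiset ℕ) (hs : Multiset.card s = h) :
    ∃ v : Fin h → ℕ, ((List.ofFn v : List ℕ) : Multiset ℕ) = s := by
  subst hs
  refine ⟨fun i => s.toList.get (i.cast (Multiset.length_toList s).symm), ?_⟩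
  conv_rhs => rw [← Multiset.coe_toList s]
  congr 1
  apply List.ext_get
  · simp
  · intro n h1 h2
    simp

lemma mem_fn {h : ℕ} {s : Multiset ℕ} {v : Fin h → ℕ}
    (hv : ((List.ofFn v : List ℕ) : Multiset ℕ) = s) (i : Fin h) : v i ∈ s := by
  rw [← hv, Multiset.mem_coe, List.mem_ofFn]
  exact ⟨i, rfl⟩

lemma sum_fn {h : ℕ} {s : Multiset ℕ} {v : Fin h → ℕ}
    (hv : ((List.ofFn v : List ℕ) : Multiset ℕ) = s) : ∑ i, v i = s.sum := by
  rw [← hv, Multiset.sum_coe, List.sum_ofFn]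

lemma urep_fin (A : Set ℕ) (h n : ℕ) :
    {s : Multiset ℕ | Multiset.card s = h ∧ (∀ a ∈ s, a ∈ A) ∧ s.sum = n}.Finite := by
  classical
  refine Set.Finite.subset ((Fintype.piFinset (fun _ : Fin h => range (n + 1))).image
    (fun v => ((List.ofFn v : List ℕ) : Multiset ℕ))).finite_toSet ?_
  rintro s ⟨h1, -, h3⟩
  obtain ⟨v, hv⟩ := exists_fn h s h1
  rw [mem_coe, mem_image]
  refine ⟨v, ?_, hv⟩
  rw [Fintype.mem_piFinset]
  intro i
  rw [mem_range, Nat.lt_succ_iff, ← h3]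
  exact Multiset.le_sum_of_mem (mem_fn hv i)

lemma fibre_le (h : ℕ) (V : Finset (Fin h → ℕ)) (s : Multiset ℕ) (hs : Multiset.card s = h) :
    (V.filter (fun v => ((List.ofFn v : List ℕ) : Multiset ℕ) = s)).card ≤ h.factorial := by
  classical
  have h1 : (V.filter (fun v => ((List.ofFn v : List ℕ) : Multiset ℕ) = s)).card ≤
      (s.toList.permutations.toFinset).card := by
    apply card_le_card_of_injOn (fun v => List.ofFn v)
    · intro v hv
      rw [mem_coe, mem_filter] at hv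
      rw [mem_coe, List.mem_toFinset, List.mem_permutations, ← Multiset.coe_eq_coe, hv.2,
        Multiset.coe_toList]
    · intro v _ w _ hvw
      exact List.ofFn_injective hvw
  refine h1.trans ((List.toFinset_card_le _).trans ?_)
  rw [List.length_permutations, Multiset.length_toList, hs]

lemma R_le (A : Set ℕ) (h : ℕ) (F : Finset ℕ) (hF : ∀ a ∈ F, a ∈ A) (n : ℕ) :
    R h F n ≤ h.factorial * urep A h n := by
  classical
  unfold R
  set V := (Fintype.piFinset (fun _ : Fin h => F)).filter (fun v => ∑ i, v i = n) with hV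
  have h1 : V.card ≤ h.factorial * (V.image (fun v => ((List.ofFn v : List ℕ) : Multiset ℕ))).card := by
    apply card_le_mul_card_image
    intro s hs
    obtain ⟨v, hv, rfl⟩ := mem_image.1 hs
    apply fibre_le
    simp
  refine h1.trans (Nat.mul_le_mul_left _ ?_)
  unfold urep
  rw [← Set.ncard_coe_finset]
  apply Set.ncard_le_ncard _ (urep_fin A h n)
  intro s hs
  rw [mem_coe] at hs
  obtain ⟨v, hv, rfl⟩ := mem_image.1 hs
  rw [hV, mem_filter, Fintype.mem_piFinset] at hv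
  refine ⟨by simp, ?_, ?_⟩
  · intro a ha
    rw [Multiset.mem_coe, List.mem_ofFn] at ha
    obtain ⟨i, rfl⟩ := ha
    exact hF _ (hv.1 i)
  · rw [Multiset.sum_coe, List.sum_ofFn]
    exact hv.2

lemma basis_count (h : ℕ) (A : Set ℕ) (hA : IsB h A) : ∃ n₀ : ℕ, ∀ N : ℕ,
    N + 1 - n₀ ≤ ((seg A N).card + 1) ^ h := by
  classical
  obtain ⟨n₀, hn₀⟩ := hA
  refine ⟨n₀, fun N => ?_⟩
  set G : Finset ℕ := insert 0 (seg A N) with hG
  have h1 : ∀ n : ℕ, ∃ v : Fin h → ℕ, n₀ ≤ n → (∀ i, v i ∈ A ∧ v i ≤ n) ∧ ∑ i, v i = n := by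
    intro n
    by_cases hn : n₀ ≤ n
    · obtain ⟨s, hs1, hs2, hs3⟩ := hn₀ n hn
      obtain ⟨v, hv⟩ := exists_fn h s hs1
      refine ⟨v, fun _ => ⟨fun i => ⟨hs2 _ (mem_fn hv i), ?_⟩, by rw [sum_fn hv, hs3]⟩⟩
      rw [← hs3]
      exact Multiset.le_sum_of_mem (mem_fn hv i)
    · exact ⟨fun _ => 0, fun h' => absurd h' hn⟩
  choose f hf using h1
  have h3 : (Finset.Icc n₀ N).image f ⊆ Fintype.piFinset (fun _ : Fin h => G) := by
    intro x hx
    obtain ⟨n, hn, rfl⟩ := Finset.mem_image.1 hx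
    rw [mem_Icc] at hn
    obtain ⟨h4, h5⟩ := hf n hn.1
    rw [Fintype.mem_piFinset]
    intro i
    rcases Nat.eq_zero_or_pos (f n i) with h | h
    · rw [h]; exact mem_insert_self _ _
    · exact mem_insert_of_mem (mem_seg.2 ⟨⟨h, (h4 i).2.trans hn.2⟩, (h4 i).1⟩)
  have h4 := Finset.card_le_card h3
  rw [Fintype.card_piFinset, prod_const, card_univ, Fintype.card_fin,
    Finset.card_image_of_injOn, Nat.card_Icc] at h4
  · refine h4.trans (Nat.pow_le_pow_left ?_ h)
    exact Finset.card_insert_le _ _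
  · intro a ha b hb hab
    rw [Finset.mem_coe, mem_Icc] at ha hb
    rw [← (hf a ha.1).2, ← (hf b hb.1).2, hab]

lemma ee_sum {ι : Type*} (s : Finset ι) (x : ι → ℝ) : ee (∑ i ∈ s, x i) = ∏ i ∈ s, ee (x i) := by
  classical
  induction s using Finset.induction_on with
  | empty => simp [ls_ee_zero]
  | insert a s ha ih => rw [sum_insert ha, prod_insert ha, ls_ee_add, ih]

lemma Sf_pow {F : Finset ℕ} {N h : ℕ} (hh : 1 ≤ h) (hF : F ⊆ Icc 1 N) (θ : ℝ) :
    Sf (ind F) θ ^ h = ∑ n ∈ Icc 1 (h * N), (R h F n : ℂ) * ee (n * θ) := by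
  classical
  rw [Sf_ind, sum_pow']
  rw [← Finset.sum_fiberwise_of_maps_to (t := Icc 1 (h * N)) (g := fun v : Fin h → ℕ => ∑ i, v i)]
  · refine Finset.sum_congr rfl fun n _ => ?_
    have h1 : ∀ v ∈ (Fintype.piFinset (fun _ : Fin h => F)).filter (fun v => ∑ i, v i = n),
        ∏ i, ee ((v i : ℝ) * θ) = ee (n * θ) := by
      intro v hv
      rw [← ee_sum, ← sum_mul]
      have := (mem_filter.1 hv).2
      rw [← this]
      push_cast
      rfl
    rw [Finset.sum_congr rfl h1, Finset.sum_const, nsmul_eq_mul]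
    rfl
  · intro v hv
    rw [Fintype.mem_piFinset] at hv
    have h1 : ∀ i, 1 ≤ v i ∧ v i ≤ N := fun i => mem_Icc.1 (hF (hv i))
    rw [mem_Icc]
    constructor
    · have : ∑ _i : Fin h, 1 ≤ ∑ i, v i := sum_le_sum fun i _ => (h1 i).1
      rw [sum_const, card_univ, Fintype.card_fin, smul_eq_mul, mul_one] at this
      omega
    · have : ∑ i, v i ≤ ∑ _i : Fin h, N := sum_le_sum fun i _ => (h1 i).2
      rw [sum_const, card_univ, Fintype.card_fin, smul_eq_mul] at this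
      exact this

lemma sum_R {F : Finset ℕ} {N h : ℕ} (hh : 1 ≤ h) (hF : F ⊆ Icc 1 N) :
    ∑ n ∈ Icc 1 (h * N), R h F n = F.card ^ h := by
  classical
  have h1 := Finset.card_eq_sum_card_fiberwise (f := fun v : Fin h → ℕ => ∑ i, v i)
    (s := Fintype.piFinset (fun _ : Fin h => F)) (t := Icc 1 (h * N)) (by
      intro v hv
      rw [mem_coe, Fintype.mem_piFinset] at hv
      have h1 : ∀ i, 1 ≤ v i ∧ v i ≤ N := fun i => mem_Icc.1 (hF (hv i))
      rw [mem_coe, mem_Icc]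
      constructor
      · have : ∑ _i : Fin h, 1 ≤ ∑ i, v i := sum_le_sum fun i _ => (h1 i).1
        rw [sum_const, card_univ, Fintype.card_fin, smul_eq_mul, mul_one] at this
        exact hh.trans this
      · have : ∑ i, v i ≤ ∑ _i : Fin h, N := sum_le_sum fun i _ => (h1 i).2
        rw [sum_const, card_univ, Fintype.card_fin, smul_eq_mul] at this
        exact this)
  rw [Fintype.card_piFinset, prod_const, card_univ, Fintype.card_fin] at h1
  exact h1.symm

/-- the `2h`-th moment over the reduced fractions -/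
theorem moment {F : Finset ℕ} {N h : ℕ} (hh : 1 ≤ h) (hF : F ⊆ Icc 1 N) (Q : ℕ) :
    ∑ q ∈ Icc 1 Q, ∑ a ∈ (range q).filter (fun a => a.Coprime q), ‖Sf (ind F) (a / q)‖ ^ (2 * h) ≤
      6 * (h * N + (Q : ℝ) ^ 2) * ∑ n ∈ Icc 1 (h * N), (R h F n : ℝ) ^ 2 := by
  have h0 := additive_large_sieve (h * N) Q (fun n => (R h F n : ℂ))
  push_cast at h0
  have h1 : ∑ n ∈ Icc 1 (h * N), ‖(R h F n : ℂ)‖ ^ 2 = ∑ n ∈ Icc 1 (h * N), (R h F n : ℝ) ^ 2 := by
    refine Finset.sum_congr rfl fun n _ => ?_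
    rw [Complex.norm_natCast]
  rw [h1] at h0
  refine le_trans (le_of_eq ?_) h0
  refine Finset.sum_congr rfl fun q _ => Finset.sum_congr rfl fun a _ => ?_
  have h2 : ‖Sf (ind F) (a / q)‖ ^ (2 * h) = ‖Sf (ind F) (a / q) ^ h‖ ^ 2 := by
    rw [norm_pow, ← pow_mul, mul_comm]
  rw [h2, Sf_pow hh hF]
  congr 2
  refine Finset.sum_congr rfl fun n _ => ?_
  rw [mul_div_assoc]

end Pool.Agent.T4h91.HR
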